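import Pool.Agent.Run7.h667.SI.Main
import Pool.Agent.Run7.h667.SI.Model
import Pool.Agent.R276.SI.Alg
import Pool.Agent.R276.SI.Fac
import Pool.Agent.R276.TR.Calc

/-!
# MP_49c4d9_an: reductive singular integral operators with Hölder coefficients are normal

Let `H` be a Hilbert space with an orthonormal basis `e n`, `n ∈ ℤ` (so `H` is `L²` of the circle and `e n` are the
exponentials), let `P` be the orthogonal projection onto the closed span of the `e n` with `n ≥ 0`, and let `a` and `b`
be Hölder continuous functions on the circle with exponents greater than one half. If the singular integral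
operator `a P + b (1 - P)`, or its adjoint `P a' + (1 - P) b'` with the conjugate functions, is reductive, then it is
normal.

Proof. Let `T = a P + b (1 - P)` and let `z` be off the curves `a(𝕋)` and `b(𝕋)`. By the starting library
(`R276.SI`) the quotient `(a - z) / (b - z)` has a factorisation `ζ^k exp u exp v` with `u` analytic and `v`
coanalytic and absolutely summable. If `k < 0`, then `z` is an eigenvalue of `T` and `T - z` has a right inverse, written
down below. The eigenvectors of the reductive operator `T` are eigenvectors of the adjoint for the conjugate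
eigenvalue, so they are orthogonal to the range of `T - z`, a contradiction. If `k > 0`, then the adjoint has an
eigenvalue and `T - z` has a left inverse, again a contradiction. So `k = 0`, `z` is in the resolvent set, and the
resolvent is bounded by the exponential of a locally integrable function of `z`. The spectrum is in the union of the
two curves, a null set. The self-commutator of `T` is compact since `P` commutes with the continuous functions modulo
compact operators. So the theorem on reductive operators with compact self-commutator of the starting library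
(`W610.HY.Reduct`) applies.
-/

set_option autoImplicit false

open scoped NNReal InnerProductSpace

namespace Pool.Agent.Results.MP_49c4d9_an.ReductiveSingularIntegrals

variable {H : Type} [NormedAddCommGroup H] [InnerProductSpace ℂ H] [CompleteSpace H]

/-- Every closed invariant subspace of `T` is invariant under the adjoint. -/
def IsReductive (T : H →L[ℂ] H) : Prop :=
  ∀ V : Submodule ℂ H, IsClosed (V : Set H) → (∀ x ∈ V, T x ∈ V) →
    ∀ x ∈ V, ContinuousLinearMap.adjoint T x ∈ V

/-- `T` is the singular integral operator `a P + b (1 - P)` in the coordinates of the orthonormal basis `e`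
indexed by the integers, where `P` projects onto the nonnegative indices: the column of index `j` of its matrix
consists of the Fourier coefficients of index `i - j` of `a` if `j ≥ 0`, and of `b` if `j < 0`. -/
def IsSingularIntegral (e : HilbertBasis ℤ ℂ H) (a b : UnitAddCircle → ℂ) (T : H →L[ℂ] H) :
    Prop :=
  ∀ i j : ℤ, ⟪e i, T (e j)⟫_ℂ =
    if 0 ≤ j then fourierCoeff a (i - j) else fourierCoeff b (i - j)

theorem HD_mono (f : ℝ → ℂ) (L q L' q' : ℝ) (hL : 0 < L) (hq : 0 ≤ q) (hL' : L ≤ L') (hq' : q ≤ q')
    (h : Pool.Agent.Y283.TO.HD f L q) : Pool.Agent.Y283.TO.HD f L' q' := by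
  intro n s t hst
  refine (h n s t hst).trans ?_
  have h1 : q ^ n ≤ q' ^ n := pow_le_pow_left₀ hq hq' n
  have h2 : 0 ≤ q ^ n := pow_nonneg hq n
  exact mul_le_mul hL' h1 h2 (hL.le.trans hL')

theorem direct (e : HilbertBasis ℤ ℂ H) (a b : UnitAddCircle → ℂ) (Ca α Cb β : ℝ≥0)
    (hα : 1 / 2 < α) (hβ : 1 / 2 < β) (ha : HolderWith Ca α a) (hb : HolderWith Cb β b)
    (T : H →L[ℂ] H) (hT : IsSingularIntegral e a b T) (hred : IsReductive T) :
    IsStarNormal T := by
  have hα0 : 0 < α := lt_trans (by norm_num) hα
  have hβ0 : 0 < β := lt_trans (by norm_num) hβ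
  obtain ⟨a', ha'⟩ : ∃ a' : C(UnitAddCircle, ℂ), a' = ⟨a, ha.continuous hα0⟩ := ⟨_, rfl⟩
  obtain ⟨b', hb'⟩ : ∃ b' : C(UnitAddCircle, ℂ), b' = ⟨b, hb.continuous hβ0⟩ := ⟨_, rfl⟩
  have hca : ⇑a' = a := by rw [ha']; rfl
  have hcb : ⇑b' = b := by rw [hb']; rfl
  rw [← hca] at ha hT
  rw [← hcb] at hb hT
  obtain ⟨L, q, hL, hq, hq2, hHD⟩ := Pool.Agent.Y283.TO.HD_of_holder a' Ca α hα ha
  obtain ⟨L', q', hL', hq', hq2', hHD'⟩ := Pool.Agent.Y283.TO.HD_of_holder b' Cb β hβ hb
  obtain ⟨M, P, h, hM, hP, hmat⟩ := Pool.Agent.Run7.h667.SI.model e
  have hTe : T = M a' * P + M b' * (1 - P) := by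
    refine Pool.Agent.Run7.h667.SI.ext_basis e _ _ fun i j => ?_
    have e1 : (M a' * P + M b' * (1 - P)) (e j) = M a' (P (e j)) + M b' (e j - P (e j)) := rfl
    have e2 : P (e j) = if 0 ≤ j then (e j : H) else 0 := h.proj j
    have e3 := hT i j
    rw [e1, e2, e3]
    by_cases hj : 0 ≤ j
    · rw [if_pos hj, if_pos hj, sub_self, map_zero, add_zero, hmat]
      rfl
    · rw [if_neg hj, if_neg hj, map_zero, zero_add, sub_zero, hmat]
      rfl
  have hred' : Pool.Agent.W706.HIR.Reductive T := hred
  rw [hTe] at hred' ⊢
  refine Pool.Agent.Run7.h667.SI.main Pool.Agent.R276.SI.Alg.main Pool.Agent.R276.SI.Fac.main h hM hP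
    a' b' (max L L') (max q q') (lt_max_of_lt_left hL) (le_max_of_le_left hq) ?_ ?_ ?_ hred'
  · rcases max_choice q q' with h1 | h1
    · rw [h1]; exact hq2
    · rw [h1]; exact hq2'
  · exact HD_mono _ L q _ _ hL (by linarith) (le_max_left _ _) (le_max_left _ _) hHD
  · exact HD_mono _ L' q' _ _ hL' (by linarith) (le_max_right _ _) (le_max_right _ _) hHD'

/-- **Reductive singular integral operators with Hölder coefficients of exponents greater than `1/2` are
normal.** Let `T` be a bounded operator on a Hilbert space with an orthonormal basis indexed by the integers such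
that `T` or its adjoint is the singular integral operator `a P + b (1 - P)`, where `a` and `b` are Hölder continuous
functions on the circle with exponents greater than `1/2`. If `T` is reductive, then `T` is normal. -/
theorem result (H : Type) [NormedAddCommGroup H] [InnerProductSpace ℂ H] [CompleteSpace H]
    (e : HilbertBasis ℤ ℂ H) (a b : UnitAddCircle → ℂ) (Ca α Cb β : ℝ≥0)
    (hα : 1 / 2 < α) (hβ : 1 / 2 < β) (ha : HolderWith Ca α a) (hb : HolderWith Cb β b)
    (T : H →L[ℂ] H)
    (hT : IsSingularIntegral e a b T ∨ IsSingularIntegral e a b (ContinuousLinearMap.adjoint T))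
    (hred : IsReductive T) : IsStarNormal T := by
  rcases hT with hT | hT
  · exact direct e a b Ca α Cb β hα hβ ha hb T hT hred
  · have h1 : IsReductive (ContinuousLinearMap.adjoint T) :=
      Pool.Agent.R276.TR.Fin.red_adj T hred
    have h2 := direct e a b Ca α Cb β hα hβ ha hb _ hT h1
    have h3 : IsStarNormal (star T) := h2
    have h4 := h3.star_comm_self
    rw [star_star] at h4
    exact ⟨h4.symm⟩

end Pool.Agent.Results.MP_49c4d9_an.ReductiveSingularIntegrals
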