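import Pool.Agent.Run7.h667.VN.Fin

/-!
# MP_49c4d9_an: typical operators of properly infinite factors are not reductive

Let `M` be a properly infinite von Neumann algebra on a separable Hilbert space `H`, for instance the
algebra of all bounded operators of an infinite-dimensional space or a factor of type `II_∞` or `III`,
and let `w 1, w 2, …` be *any* positive numbers. The set `PowerGrowth M w` of the operators `T` in `M`
with `‖T ^ n‖ ≤ w n` for all `n ≥ 1` is a Polish space for the strong* topology. For a typical `T` in
this space

(1) there are closed hyperinvariant subspaces, neither `{0}` nor `H`, arbitrarily close to every vector;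

(2) `T` generates `M`, that is, every operator commuting with `T` and its adjoint commutes with `M`;

(3) if `M` is a factor, then no hyperinvariant subspace as in (1) is reducing, so `T` is not reductive,
not even relative to `M`: there is a projection in `M` whose range is invariant but not reducing.

For `M` the algebra of all operators, (2) says that `T` is irreducible.

Proof. A properly infinite algebra can be written as the algebra of the operators on `L²([0, 1]; H)`
which commute with the pointwise operators given by the commutant of `M`; it contains all operators of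
`L²([0, 1])`. So the construction of `MP_f981b0_an.TypicalPowerGrowth` (nilpotent operators `A` with
`‖A ^ n‖ < w n` are dense; couple `A` with many copies of itself by small weights and use the
polynomiality of the orbits of the derivation `X ↦ A X - X A`) can be carried out inside of `M`; this
gives (1). For (2) let `a` be a contraction in `M`, `A = P A P` a nilpotent operator as above with
`1 - P` large, and let `U 1, U 2, U 3` be partial isometries in `M` from the range of `P` to orthogonal
subspaces of the kernel of `P`, `V j` their adjoints. The operator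
`T = A + δ (U 1 + U 3 V 1 + U 2 (P a P))` is nilpotent and close to `A`, and if `S` commutes with `T` and
its adjoint then, looking at the kernels of `T` and `T²`, `S` commutes with `P` and with the projection
onto the range of `U 1`, and therefore with `(P a P)* (P a P)`, which is close to `a* a`. By weak
compactness of the ball this gives a dense open condition, and `M` is spanned by the elements `a* a`.
(3) follows: the projection onto a hyperinvariant subspace lies in `M`; if it commutes with `T`, it
commutes with `M` by (2), so it is `0` or `1`.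
-/

set_option autoImplicit false
open TopologicalSpace

namespace Pool.Agent.Results.MP_49c4d9_an.TypicalInProperlyInfiniteFactors

variable {H : Type} [NormedAddCommGroup H] [InnerProductSpace ℂ H] [CompleteSpace H]

/-- The von Neumann algebra `M` contains isometries `s 0, s 1, …` with mutually orthogonal ranges whose
sum is the whole space. On a separable space these are the properly infinite von Neumann algebras. -/
def ProperlyInfinite (M : VonNeumannAlgebra H) : Prop :=
  ∃ s : ℕ → H →L[ℂ] H, (∀ n, s n ∈ M) ∧ (∀ m n, star (s m) * s n = if m = n then 1 else 0) ∧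
    ∀ x, HasSum (fun n => s n (star (s n) x)) x

/-- The centre of `M` consists of the scalar operators. -/
def Factor (M : VonNeumannAlgebra H) : Prop :=
  ∀ A ∈ M, (∀ B ∈ M, A * B = B * A) → ∃ c : ℂ, A = c • (1 : H →L[ℂ] H)

/-- The operators in `M` whose powers satisfy `‖T ^ n‖ ≤ w n` for all `n ≥ 1`. -/
def PowerGrowth (M : VonNeumannAlgebra H) (w : ℕ → ℝ) : Set (H →L[ℂ] H) :=
  {T | T ∈ M ∧ ∀ n, 0 < n → ‖T ^ n‖ ≤ w n}

/-- The strong* operator topology on this set: pointwise convergence of the operators and of their
adjoints (the maps `y ↦ y ∘ T` on the dual space). -/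
@[reducible] noncomputable def SOTStar (M : VonNeumannAlgebra H) (w : ℕ → ℝ) :
    TopologicalSpace (PowerGrowth M w) :=
  TopologicalSpace.induced (fun T : PowerGrowth M w => ((fun x : H => (T : H →L[ℂ] H) x),
    (fun y : StrongDual ℂ H => y.comp (T : H →L[ℂ] H)))) instTopologicalSpaceProd

/-- `V` is a closed subspace, neither `{0}` nor `H`, which is invariant under all bounded operators
commuting with `T`. -/
structure Hyperinvariant (T : H →L[ℂ] H) (V : Submodule ℂ H) : Prop where
  closed : IsClosed (V : Set H)
  ne_bot : V ≠ ⊥
  ne_top : V ≠ ⊤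
  inv : ∀ S : H →L[ℂ] H, S * T = T * S → ∀ v ∈ V, S v ∈ V

/-- Arbitrarily close to every vector there is a vector in a nontrivial closed hyperinvariant
subspace. -/
def DenselyHyperinvariant (T : H →L[ℂ] H) : Prop :=
  ∀ (x₀ : H) (ε : ℝ), 0 < ε → ∃ V : Submodule ℂ H, Hyperinvariant T V ∧ ∃ x ∈ V, ‖x - x₀‖ < ε

/-- `T` generates `M`: every operator commuting with `T` and its adjoint commutes with `M`. -/
def Generates (M : VonNeumannAlgebra H) (T : H →L[ℂ] H) : Prop :=
  ∀ S : H →L[ℂ] H, S * T = T * S → S * star T = star T * S → ∀ A ∈ M, S * A = A * S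

/-- `T` is reductive: every closed invariant subspace is invariant under the adjoint. -/
def Reductive (T : H →L[ℂ] H) : Prop :=
  ∀ V : Submodule ℂ H, IsClosed (V : Set H) → (∀ v ∈ V, T v ∈ V) → ∀ v ∈ V, star T v ∈ V

/-- `T` is reductive relative to `M`: each projection of `M` whose range is invariant under `T` commutes
with `T`. -/
def ReductiveIn (M : VonNeumannAlgebra H) (T : H →L[ℂ] H) : Prop :=
  ∀ P ∈ M, IsStarProjection P → T * P = P * T * P → T * P = P * T

/-- **Typical operators with prescribed power growth in a properly infinite factor generate the factor,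
have nontrivial hyperinvariant subspaces close to every vector, and none of these subspaces is
reducing.** The algebra of all operators of an infinite-dimensional space is such a factor. -/
theorem result :
    (∀ (H : Type) [NormedAddCommGroup H] [InnerProductSpace ℂ H] [CompleteSpace H]
      [SeparableSpace H] [Nontrivial H] (M : VonNeumannAlgebra H), ProperlyInfinite M →
      ∀ w : ℕ → ℝ, (∀ n, 0 < w n) →
        (PowerGrowth M w).Nonempty ∧ @IsCompletelyMetrizableSpace _ (SOTStar M w) ∧
        @BaireSpace _ (SOTStar M w) ∧
        {T : PowerGrowth M w | DenselyHyperinvariant (T : H →L[ℂ] H) ∧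
          Generates M (T : H →L[ℂ] H) ∧
          (Factor M → (∀ V : Submodule ℂ H, Hyperinvariant (T : H →L[ℂ] H) V →
              ∃ v ∈ V, star (T : H →L[ℂ] H) v ∉ V) ∧
            ¬ Reductive (T : H →L[ℂ] H) ∧ ¬ ReductiveIn M (T : H →L[ℂ] H))} ∈
          @residual _ (SOTStar M w)) ∧
    (∀ (H : Type) [NormedAddCommGroup H] [InnerProductSpace ℂ H] [CompleteSpace H]
      [SeparableSpace H] (M : VonNeumannAlgebra H), ¬ Module.Finite ℂ H → (∀ T, T ∈ M) →
      ProperlyInfinite M ∧ Factor M) := by
  refine ⟨?_, ?_⟩
  · rintro H _ _ _ _ _ M ⟨s, hsM, horth, htot⟩ w hw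
    obtain ⟨h1, h2, h3, h4⟩ := Run7.h667.VN.typ_M M hsM ⟨horth, htot⟩ hw (PowerGrowth M w) rfl
      (SOTStar M w) rfl
    refine ⟨h1, h2, h3, Filter.mem_of_superset h4 ?_⟩
    rintro T ⟨hd, hG⟩
    have hd' : DenselyHyperinvariant (T : H →L[ℂ] H) := by
      intro x₀ ε hε
      obtain ⟨V, a1, a2, a3, a4, a5⟩ := hd x₀ ε hε
      exact ⟨V, ⟨a1, a2, a3, a4⟩, a5⟩
    refine ⟨hd', hG, fun hF => ?_⟩
    have hnr : ∀ V : Submodule ℂ H, Hyperinvariant (T : H →L[ℂ] H) V →
        ∃ v ∈ V, star (T : H →L[ℂ] H) v ∉ V := fun V hV =>
      Run7.h667.VN.nonred T.2.1 hG hF V hV.closed hV.ne_bot hV.ne_top hV.inv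
    obtain ⟨V, hV, -⟩ := hd' 0 1 one_pos
    refine ⟨hnr, fun hred => ?_, fun hred => ?_⟩
    · obtain ⟨v, hv, hv'⟩ := hnr V hV
      exact hv' (hred V hV.closed (hV.inv T rfl) v hv)
    · have : CompleteSpace V := hV.closed.completeSpace_coe
      have hPM := Run7.h667.VN.proj_mem T.2.1 V hV.inv
      have hPV : ∀ x ∈ V, V.starProjection x = x := fun x hx => V.starProjection_eq_self_iff.2 hx
      have h5 := hred V.starProjection hPM isStarProjection_starProjection (by
        ext x
        exact (hPV _ (hV.inv T rfl _ (V.starProjection_apply_mem x))).symm)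
      obtain ⟨v, hv, hv'⟩ := hnr V hV
      apply hv'
      have h6 := congrArg star h5
      have hPs : star V.starProjection = V.starProjection := isSelfAdjoint_starProjection V
      rw [star_mul, star_mul, hPs] at h6
      have h7 : star (T : H →L[ℂ] H) v = V.starProjection (star (T : H →L[ℂ] H) v) := by
        have h8 := congrArg (fun A : H →L[ℂ] H => A v) h6
        have h9 : V.starProjection (star (T : H →L[ℂ] H) v) =
            star (T : H →L[ℂ] H) (V.starProjection v) := h8
        rw [h9, hPV v hv]
      rw [h7]
      exact V.starProjection_apply_mem _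
  · intro H _ _ _ _ M hinf hM
    obtain ⟨s, hs⟩ := Run7.h667.VN.exists_isos hinf
    refine ⟨⟨s, fun n => hM _, hs.orth, hs.tot⟩, fun A _ hA => ?_⟩
    -- the centre
    have hA' : ∀ B : H →L[ℂ] H, A * B = B * A := fun B => hA B (hM B)
    have hnt : Nontrivial H := by
      by_contra hcon
      rw [not_nontrivial_iff_subsingleton] at hcon
      exact hinf inferInstance
    obtain ⟨z, hz⟩ := exists_ne (0 : H)
    have hzn : inner ℂ z z ≠ 0 := inner_self_ne_zero.2 hz
    refine ⟨inner ℂ z (A z) / inner ℂ z z, ?_⟩
    ext x
    -- the operator `v ↦ ⟪z, v⟫ x`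
    set B : H →L[ℂ] H := (innerSL ℂ z).smulRight x with hB
    have hBv : ∀ v, B v = inner ℂ z v • x := fun v => by
      rw [hB, ContinuousLinearMap.smulRight_apply, innerSL_apply_apply]
    have h1 : A (B z) = B (A z) := congrArg (fun S : H →L[ℂ] H => S z) (hA' B)
    rw [hBv, hBv, map_smul] at h1
    show A x = (inner ℂ z (A z) / inner ℂ z z) • x
    rw [div_eq_inv_mul, mul_smul, ← h1, smul_smul, inv_mul_cancel₀ hzn, one_smul]

end Pool.Agent.Results.MP_49c4d9_an.TypicalInProperlyInfiniteFactors
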