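import Pool.Agent.Run7.h667.XQ.G

/-!
# MP_49c4d9_an: typical norm limits of stable nilpotent operators are not reductive

Let `H` be a separable infinite-dimensional Hilbert space. An operator on `H` is called a *stable
nilpotent* if it is unitarily equivalent to the direct sum of countably many copies of one nilpotent
operator (of any order, on a Hilbert space of finite or infinite dimension). Let `Limits H` be the set of
all norm limits of stable nilpotents, a complete metric space for the norm distance. No operator
in `Limits H` has anything to do with compact operators: the C*-algebra which it generates contains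
no compact operator except `0`.

A typical operator `T` in `Limits H` (in the sense of Baire category)

(1) is quasinilpotent, injective, and has dense range;

(2) is irreducible, and so generates the von Neumann algebra of all operators on `H`;

(3) has closed hyperinvariant subspaces, neither `{0}` nor `H`, arbitrarily close to every vector,
and none of them is reducing. In particular `T` is not reductive.

For quasinilpotent operators the reductive operator problem is open. In (1) quasinilpotence is
trivial, and that `T` is injective with dense range is in the starting result `TypicalQuasinilpotent`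
of `MP_f981b0_an`, which also gives one hyperinvariant subspace for a typical `T`. New are (2), the
subspaces close to every vector and the absence of reducing subspaces in (3), and the statement on the
compact operators.

Proof of (2). Let `t ^ N = 0`, `t ^ (N - 1) ≠ 0`, and let `T` be the sum of infinitely many copies of
`t`. Given a vector `f` in the sum of the first `c` copies, perturb `T` in blocks of `c + 1` copies
by `κ f ⊗ h`, where `h` is in the last copy and `(t*) ^ (N - 1) h = z ≠ 0`. All terms
`τ ^ i (f ⊗ h) τ ^ j (f ⊗ h)` vanish, so the perturbed operator `τ'` of the block is again nilpotent. If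
`n` is the order of `f`, then `τ' ^ (n + N - 1) = κ τ ^ (n - 1) f ⊗ z` has rank one, so `z ⊗ z` is in the star
algebra generated by `τ'`; and the vectors `τ' ^ (N + j) z`, `0 ≤ j < n`, are triangular combinations
of the vectors `τ ^ i f`, so `f = q(τ') z` with a polynomial `q`. Hence `f ⊗ f` is of the form
`C q(τ') (τ' ^ M)* τ' ^ M q(τ')*`. The corresponding open sets are dense, and for `T` in all of them
every `S` commuting with `T` and `T*` maps every `f` to a multiple of `f`.

Proof of (3). The construction of the starting development `H952R2/TQ` (helper952 and others) can be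
started near any given vector.
-/

set_option autoImplicit false
open Filter Topology

namespace Pool.Agent.Results.MP_49c4d9_an.TypicalStableQuasinilpotent

variable {H : Type} [NormedAddCommGroup H] [InnerProductSpace ℂ H] [CompleteSpace H]

/-- `A` is unitarily equivalent to the direct sum of countably many copies of one nilpotent operator
`t` on a Hilbert space `K`: there are isometries `V 0, V 1, …` of `K` into `H` with orthogonal ranges
that span `H`, such that `A V i = V i t`. -/
def StableNilpotent (A : H →L[ℂ] H) : Prop :=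
  ∃ (K : Type) (_ : NormedAddCommGroup K) (_ : InnerProductSpace ℂ K) (_ : CompleteSpace K)
    (V : ℕ → (K →ₗᵢ[ℂ] H)) (t : K →L[ℂ] K) (n : ℕ),
    IsHilbertSum ℂ (fun _ : ℕ => K) V ∧ t ^ n = 0 ∧ ∀ i x, A (V i x) = V i (t x)

/-- the norm limits of stable nilpotents -/
def Limits (H : Type) [NormedAddCommGroup H] [InnerProductSpace ℂ H] [CompleteSpace H] :
    Set (H →L[ℂ] H) := closure {A | StableNilpotent A}

/-- `V` is a closed hyperinvariant subspace of `T`, neither `{0}` nor the whole space -/
def Hyperinvariant (T : H →L[ℂ] H) (V : Submodule ℂ H) : Prop :=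
  IsClosed (V : Set H) ∧ V ≠ ⊥ ∧ V ≠ ⊤ ∧ ∀ S : H →L[ℂ] H, S * T = T * S → ∀ v ∈ V, S v ∈ V

/-- `V` reduces `T`: it is invariant for `T` and for the adjoint `star T` -/
def Reducing (T : H →L[ℂ] H) (V : Submodule ℂ H) : Prop :=
  (∀ v ∈ V, T v ∈ V) ∧ ∀ v ∈ V, (star T) v ∈ V

/-- every closed invariant subspace is reducing -/
def Reductive (T : H →L[ℂ] H) : Prop :=
  ∀ V : Submodule ℂ H, IsClosed (V : Set H) → (∀ v ∈ V, T v ∈ V) → Reducing T V

/-- the C*-algebra generated by `T` and `1` contains no compact operator except `0` -/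
def NoCompacts (T : H →L[ℂ] H) : Prop :=
  ∀ C ∈ (StarAlgebra.adjoin ℂ {T}).topologicalClosure, IsCompactOperator C → C = 0

/-- `T` is quasinilpotent, injective, and has dense range -/
def QuasinilpotentInjectiveDense (T : H →L[ℂ] H) : Prop :=
  spectrum ℂ T = {0} ∧ (∀ v, T v = 0 → v = 0) ∧ DenseRange T

/-- only the scalars commute with `T` and its adjoint -/
def IrreducibleOp (T : H →L[ℂ] H) : Prop :=
  ∀ S : H →L[ℂ] H, (∀ v, S (T v) = T (S v)) → (∀ v, S ((star T) v) = (star T) (S v)) →
    ∃ c : ℂ, ∀ v, S v = c • v

/-- nontrivial closed hyperinvariant subspaces arbitrarily close to every vector -/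
def DenselyHyperinvariant (T : H →L[ℂ] H) : Prop :=
  ∀ (e : H) (δ : ℝ), 0 < δ → ∃ V, Hyperinvariant T V ∧ ∃ v ∈ V, ‖v - e‖ < δ

/-- no closed subspace except `{0}` and the whole space is reducing -/
def NoReducing (T : H →L[ℂ] H) : Prop :=
  ∀ V : Submodule ℂ H, IsClosed (V : Set H) → V ≠ ⊥ → V ≠ ⊤ → ¬ Reducing T V

/-- **Typical norm limits of stable nilpotent operators are quasinilpotent, irreducible, and have
hyperinvariant subspaces close to every vector, none of which is reducing.** -/
theorem result (H : Type) [NormedAddCommGroup H] [InnerProductSpace ℂ H] [CompleteSpace H]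
    [TopologicalSpace.SeparableSpace H] (hH : ¬ FiniteDimensional ℂ H) :
    (Limits H).Nonempty ∧ CompleteSpace (Limits H) ∧ (∀ T ∈ Limits H, NoCompacts T) ∧
    {T : Limits H | QuasinilpotentInjectiveDense T.1 ∧ IrreducibleOp T.1 ∧
      DenselyHyperinvariant T.1 ∧ NoReducing T.1 ∧ ¬ Reductive T.1} ∈ residual (Limits H) := by
  have hnt : Nontrivial H := by
    by_contra h
    rw [not_nontrivial_iff_subsingleton] at h
    exact hH inferInstance
  obtain ⟨b⟩ := Run7.h667.VN.nonempty_basis hH
  have hamp : ∀ A : H →L[ℂ] H, StableNilpotent A ↔ Pool.Agent.H952R2.TQ.AmpN A := by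
    intro A
    constructor
    · rintro ⟨K, i1, i2, i3, V, t, n, h1, h4, h5⟩
      exact ⟨K, i1, i2, i3, _, t, n, Run7.h667.XQ.frame_of_sum h1, h4,
        fun i => ContinuousLinearMap.ext (h5 i)⟩
    · rintro ⟨K, i1, i2, i3, V, t, n, hV, h4, h5⟩
      obtain ⟨W, hW, hWV⟩ := Run7.h667.XQ.sum_of_frame hV
      exact ⟨K, i1, i2, i3, W, t, n, hW, h4, fun i x => by
        rw [hWV, hWV]; exact DFunLike.congr_fun (h5 i) x⟩
  have hL : Limits H = Run7.h667.XQ.NN H := by
    unfold Limits Run7.h667.XQ.NN
    congr 1
    ext A
    exact hamp A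
  refine ⟨⟨0, subset_closure ((hamp 0).mpr ⟨ℂ, inferInstance, inferInstance, inferInstance, _, 0, 1,
    Run7.h667.XQ.frame_basis b, pow_one _, fun i => by simp⟩)⟩,
    isClosed_closure.completeSpace_coe, ?_, ?_⟩
  · intro T hT C hC hcomp
    refine Run7.h667.XQ.no_compact (fun ε hε => ?_) hC hcomp
    obtain ⟨A, hA, hd⟩ := Metric.mem_closure_iff.mp hT ε hε
    exact ⟨A, (hamp A).mp hA, by rwa [dist_eq_norm] at hd⟩
  · have h1 := Run7.h667.XQ.residual_NN (p := fun T : H →L[ℂ] H =>
      (((∀ v, T v = 0 → v = 0) ∧ DenseRange T) ∧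
      ∀ S : H →L[ℂ] H, S * T = T * S → S * star T = star T * S →
        ∃ c : ℂ, S = c • (1 : H →L[ℂ] H)) ∧
      ∀ (e : H) (δ : ℝ), 0 < δ → ∃ E : Submodule ℂ H, Run7.h667.XQ.IsHyp T E ∧
        ∃ v ∈ E, ‖v - e‖ < δ)
      (Filter.inter_mem (Filter.inter_mem (Pool.Agent.H952R2.TQ.P.INJ Run7.h667.XQ.bl
        Pool.Agent.H952R2.TQ.P.F2 H) Run7.h667.XQ.irred) Run7.h667.XQ.near_all)
    rw [hL]
    refine Filter.mem_of_superset h1 ?_
    rintro T ⟨hTX, ⟨⟨hinj, hdr⟩, hirr⟩, hhyp⟩
    have hred : ∀ V : Submodule ℂ H, IsClosed (V : Set H) → V ≠ ⊥ → V ≠ ⊤ →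
        ¬ Reducing (T : H →L[ℂ] H) V := by
      intro V hV hb ht hr
      rcases Run7.h667.XQ.reducing_trivial hirr V hV hr.1 hr.2 with h | h
      · exact hb h
      · exact ht h
    refine ⟨⟨?_, hinj, hdr⟩, fun S h2 h3 => ?_, hhyp, hred, ?_⟩
    · obtain ⟨l, hl⟩ := spectrum.nonempty (T : H →L[ℂ] H)
      have h2 : ∀ l ∈ spectrum ℂ (T : H →L[ℂ] H), l = 0 := by
        intro l hl
        by_contra hne
        obtain ⟨n, hn, hb⟩ := hTX.1 ‖l‖ (norm_pos_iff.mpr hne)
        have h3 : l ^ n ∈ spectrum ℂ ((T : H →L[ℂ] H) ^ n) := spectrum.pow_mem_pow _ n hl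
        have h4 := spectrum.norm_le_norm_of_mem h3
        rw [norm_pow] at h4
        linarith
      ext l'
      rw [Set.mem_singleton_iff]
      exact ⟨h2 l', fun h => by rw [h, ← h2 l hl]; exact hl⟩
    · obtain ⟨c, hc⟩ := hirr S (ContinuousLinearMap.ext h2) (ContinuousLinearMap.ext h3)
      exact ⟨c, fun v => by rw [hc]; rfl⟩
    · intro hR
      obtain ⟨V, hV, -⟩ := hhyp 0 1 one_pos
      exact hred V hV.1 hV.2.1 hV.2.2.1 (hR V hV.1 fun v hv => hV.2.2.2 T rfl v hv)

end Pool.Agent.Results.MP_49c4d9_an.TypicalStableQuasinilpotent
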